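import Pool.Agent.Helper2_MV.Step

/-!
A theory with `xyx` as an isoterm which satisfies neither the swap in the interleaved block nor
the swap of two letters with a pin keeps the words of the family.
-/

namespace Pool.Agent.Helper2_MV

open Pool.Agent.Helper14_MV

/-- the congruence on lists -/
def RR (β : FIC) (l l' : List ℕ) : Prop := β.r (FreeMonoid.ofList l) (FreeMonoid.ofList l')

theorem toList_hom (φ : Word →* Word) (w : Word) :
    (φ w).toList = w.toList.flatMap (fun i => (φ (FreeMonoid.of i)).toList) := by
  induction w using FreeMonoid.inductionOn' with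
  | one => simp
  | of_mul b u ih =>
    rw [map_mul, FreeMonoid.toList_mul, ih, FreeMonoid.toList_mul, FreeMonoid.toList_of,
      List.flatMap_append, List.flatMap_cons, List.flatMap_nil, List.append_nil]

variable {β : FIC}

theorem RR.symm {l l' : List ℕ} (h : RR β l l') : RR β l' l := β.symm h

theorem RR.append {l l' m m' : List ℕ} (h : RR β l l') (h' : RR β m m') :
    RR β (l ++ m) (l' ++ m') := by
  unfold RR
  rw [FreeMonoid.ofList_append, FreeMonoid.ofList_append]
  exact β.mul h h'

theorem RR.refl (l : List ℕ) : RR β l l := β.refl _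

theorem RR.sub (g : ℕ → List ℕ) {l l' : List ℕ} (h : RR β l l') :
    RR β (l.flatMap g) (l'.flatMap g) := by
  have e : ∀ m : List ℕ, (FreeMonoid.lift (fun i => FreeMonoid.ofList (g i)) : Word →* Word)
      (FreeMonoid.ofList m) = FreeMonoid.ofList (m.flatMap g) := by
    intro m
    apply FreeMonoid.toList.injective
    rw [toList_hom]
    simp [FreeMonoid.lift_eval_of]
  unfold RR
  rw [← e, ← e]
  exact β.sub _ h

theorem flatMap_filter (p : ℕ → Bool) (l : List ℕ) :
    l.flatMap (fun i => if p i then [i] else []) = l.filter p := by
  induction l with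
  | nil => rfl
  | cons a l ih =>
    rw [List.flatMap_cons, ih]
    by_cases h : p a = true
    · simp [h]
    · simp [h]

theorem RR.filter (p : ℕ → Bool) {l l' : List ℕ} (h : RR β l l') :
    RR β (l.filter p) (l'.filter p) := by
  rw [← flatMap_filter, ← flatMap_filter]
  exact h.sub _

/-- `xyx` is an isoterm -/
def Iso3 (β : FIC) : Prop := ∀ l, RR β [0, 1, 0] l → l = [0, 1, 0]

theorem iso_nil (H : Iso3 β) {l : List ℕ} (h : RR β [] l) : l = [] := by
  have h1 := H _ ((RR.refl (β := β) [0, 1, 0]).append h)
  have h2 := congrArg List.length h1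
  rw [List.length_append] at h2
  exact List.length_eq_zero_iff.1 (by simpa using h2)

theorem RR.content (H : Iso3 β) {l l' : List ℕ} (h : RR β l l') {c : ℕ} (hc : c ∉ l) :
    c ∉ l' := by
  have h1 := h.filter (fun i => i == c)
  have h2 : l.filter (fun i => i == c) = [] := by
    rw [List.filter_eq_nil_iff]
    intro a ha hac
    rw [beq_iff_eq] at hac
    exact hc (hac ▸ ha)
  rw [h2] at h1
  have h3 := iso_nil H h1
  rw [List.filter_eq_nil_iff] at h3
  intro hc'
  exact h3 c hc' (by simp)

theorem iso_aba (H : Iso3 β) {a b : ℕ} (hab : a ≠ b) {l : List ℕ} (h : RR β [a, b, a] l) :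
    l = [a, b, a] := by
  have h1 := h.sub (fun i => if i = a then [0] else if i = b then [1] else [])
  have e1 : [a, b, a].flatMap (fun i => if i = a then [0] else if i = b then [1] else []) =
      [0, 1, 0] := by simp [Ne.symm hab]
  rw [e1] at h1
  have h2 := congrArg (List.flatMap (fun j => if j = 0 then [a] else [b])) (H _ h1)
  rw [List.flatMap_assoc] at h2
  have h3 : l.flatMap (fun x => (if x = a then [0] else if x = b then [1] else []).flatMap
      (fun j => if j = 0 then [a] else [b])) = l.flatMap (fun x => [x]) := by
    apply List.flatMap_congr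
    intro i hi
    have : i = a ∨ i = b := by
      by_contra hcon
      exact h.content H (c := i) (by simp; tauto) hi
    rcases this with rfl | rfl
    · simp
    · simp [Ne.symm hab]
  rw [h3, List.flatMap_singleton'] at h2
  rw [h2]
  rfl

theorem iso_ab (H : Iso3 β) {a b : ℕ} (hab : a ≠ b) {l : List ℕ} (h : RR β [a, b] l) :
    l = [a, b] := by
  have h1 := iso_aba H hab (h.append (RR.refl [a]))
  have h2 : l ++ [a] = [a, b] ++ [a] := h1
  exact List.append_cancel_right h2

theorem RR.sep (H : Iso3 β) {N N' : List ℕ} (hN : N.filter sep = [9, 10]) (h : RR β N N') :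
    N'.filter sep = [9, 10] := by
  have h1 := h.filter Pool.Agent.Helper2_MV.sep
  rw [hN] at h1
  exact iso_ab H (by decide) h1

/-- restriction to a letter and one separator -/
theorem filt9 {b0 b1 b2 : List ℕ} (h0 : SF b0) (h1 : SF b1) (h2 : SF b2) {a : ℕ}
    (ha : Helper2_MV.sep a = false) :
    (mk3 b0 b1 b2).filter (fun i => i == a || i == 9) =
      List.replicate (b0.count a) a ++ 9 :: List.replicate (b1.count a + b2.count a) a ∧
    (mk3 b0 b1 b2).filter (fun i => i == a || i == 10) =
      List.replicate (b0.count a + b1.count a) a ++ 10 :: List.replicate (b2.count a) a := by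
  have e : ∀ b : List ℕ, SF b → ∀ t, t = 9 ∨ t = 10 →
      b.filter (fun i => i == a || i == t) = List.replicate (b.count a) a := by
    intro b hb t ht
    rw [← List.filter_beq]
    apply List.filter_congr
    intro i hi
    have := hb i hi
    have : i ≠ t := by
      intro h
      subst h
      rcases ht with rfl | rfl <;> simp [sep] at this
    simp [this]
  have ha' : a ≠ 9 ∧ a ≠ 10 := by
    constructor <;> rintro rfl <;> simp [sep] at ha
  constructor
  · rw [mk3, List.filter_append, List.filter_cons_of_pos (by simp), List.filter_append,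
      List.filter_cons_of_neg (by simp [Ne.symm ha'.2]), e _ h0 9 (by simp), e _ h1 9 (by simp),
      e _ h2 9 (by simp), List.replicate_append_replicate]
  · rw [mk3, List.filter_append, List.filter_cons_of_neg (by simp [Ne.symm ha'.1]),
      List.filter_append,
      List.filter_cons_of_pos (by simp), e _ h0 10 (by simp), e _ h1 10 (by simp),
      e _ h2 10 (by simp), ← List.append_assoc, List.replicate_append_replicate]

theorem rep_eq {a t p q : ℕ} (hat : a ≠ t)
    (h : List.replicate p a ++ t :: List.replicate q a = [a, t, a]) : p = 1 ∧ q = 1 := by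
  have h1 := congrArg (List.idxOf t) h
  have h2 := congrArg List.length h
  have e1 : List.idxOf t (List.replicate p a ++ t :: List.replicate q a) = p := by
    rw [List.idxOf_append_of_notMem (by simp [List.mem_replicate]; intro _; exact Ne.symm hat)]
    simp
  have e2 : List.idxOf t [a, t, a] = 1 := by
    rw [List.idxOf_cons_ne _ hat, List.idxOf_cons_self]
  rw [e1, e2] at h1
  simp at h2
  omega

theorem rep_iff (H : Iso3 β) {a t p q p' q' : ℕ} (hat : a ≠ t)
    (h : RR β (List.replicate p a ++ t :: List.replicate q a)
      (List.replicate p' a ++ t :: List.replicate q' a)) :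
    (p = 1 ∧ q = 1) ↔ (p' = 1 ∧ q' = 1) := by
  constructor
  · rintro ⟨rfl, rfl⟩
    exact rep_eq hat (iso_aba H hat h)
  · rintro ⟨rfl, rfl⟩
    exact rep_eq hat (iso_aba H hat h.symm)

theorem blk_subset (l : List ℕ) (k a : ℕ) (h : a ∈ blk l k) : a ∈ l := by
  induction l generalizing k with
  | nil => cases k <;> simp [blk] at h
  | cons b l ih =>
    by_cases hb : sep b = true
    · cases k with
      | zero => simp [blk, hb] at h
      | succ k => simp only [blk, hb, if_true] at h; exact List.mem_cons_of_mem _ (ih k h)
    · cases k with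
      | zero =>
        simp only [blk, hb] at h
        simp only [Bool.false_eq_true, if_false, List.mem_cons] at h
        rcases h with h | h
        · subst h; simp
        · exact List.mem_cons_of_mem _ (ih 0 h)
      | succ k =>
        simp only [blk, hb] at h
        simp only [Bool.false_eq_true, if_false] at h
        exact List.mem_cons_of_mem _ (ih (k + 1) h)

/-- letters in two different blocks stay there -/
theorem count_keep (H : Iso3 β) {N N' : List ℕ} (hN : N.filter sep = [9, 10])
    (h : RR β N N') {a : ℕ} (ha : sep a = false)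
    (hc : (blk N 0).count a ≤ 1 ∧ (blk N 1).count a ≤ 1 ∧ (blk N 2).count a ≤ 1 ∧
      (blk N 0).count a + (blk N 1).count a + (blk N 2).count a = 2) :
    (blk N' 0).count a = (blk N 0).count a ∧ (blk N' 1).count a = (blk N 1).count a ∧
      (blk N' 2).count a = (blk N 2).count a := by
  have hN' := h.sep H hN
  have h9 := h.filter (fun i => i == a || i == 9)
  have h10 := h.filter (fun i => i == a || i == 10)
  have f := filt9 (blk_sf N 0) (blk_sf N 1) (blk_sf N 2) ha
  have f' := filt9 (blk_sf N' 0) (blk_sf N' 1) (blk_sf N' 2) ha
  rw [← mk3_of_sep hN] at f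
  rw [← mk3_of_sep hN'] at f'
  rw [f.1, f'.1] at h9
  rw [f.2, f'.2] at h10
  have ha' : a ≠ 9 ∧ a ≠ 10 := by
    constructor <;> rintro rfl <;> simp [sep] at ha
  have i9 := rep_iff H ha'.1 h9
  have i10 := rep_iff H ha'.2 h10
  omega

theorem Base.count {pl px pz : ℕ} (har : Arr pl px pz) {N : List ℕ} (hN : Base pl px pz N)
    {a : ℕ} (ha : a ≤ 8) :
    (blk N 0).count a ≤ 1 ∧ (blk N 1).count a ≤ 1 ∧ (blk N 2).count a ≤ 1 ∧
      (blk N 0).count a + (blk N 1).count a + (blk N 2).count a = 2 := by
  have h0 := List.nodup_iff_count_le_one.1 (hN.nodup har 0) a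
  have h1 := List.nodup_iff_count_le_one.1 (hN.nodup har 1) a
  have h2 := List.nodup_iff_count_le_one.1 (hN.nodup har 2) a
  refine ⟨h0, h1, h2, ?_⟩
  have cl : (blk N pl).count a = 1 := by
    rw [hN.hl]; interval_cases a <;> decide
  have cx : (blk N px).count a = if a < 4 then 1 else 0 := by
    rw [hN.hx.count_eq]; interval_cases a <;> decide
  have cz : (blk N pz).count a = if a < 4 then 0 else 1 := by
    rw [hN.hz.count_eq]; interval_cases a <;> decide
  obtain ⟨g1, g2, g3, g4, g5, g6⟩ := har
  by_cases h4 : a < 4
  · rw [if_pos h4] at cx cz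
    interval_cases pl <;> interval_cases px <;> interval_cases pz <;> first | omega | skip
  · rw [if_neg h4] at cx cz
    interval_cases pl <;> interval_cases px <;> interval_cases pz <;> first | omega | skip

/-- the blocks of an equivalent word are rearrangements -/
theorem perm_keep (H : Iso3 β) {pl px pz : ℕ} (har : Arr pl px pz) {N N' : List ℕ}
    (hN : Base pl px pz N) (h : RR β N N') (k : ℕ) (hk : k < 3) :
    (blk N' k).Perm (blk N k) := by
  rw [List.perm_iff_count]
  intro a
  by_cases ha : sep a = true
  · have e : ∀ M : List ℕ, (blk M k).count a = 0 := by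
      intro M
      rw [List.count_eq_zero]
      intro hm
      have := blk_sf M k a hm
      rw [ha] at this
      exact absurd this (by decide)
    rw [e, e]
  · have ha0 : sep a = false := by simpa using ha
    by_cases h8 : a ≤ 8
    · have := count_keep H hN.hs h ha0 (hN.count har h8)
      interval_cases k
      · exact this.1
      · exact this.2.1
      · exact this.2.2
    · have hn : a ∉ N := by
        intro hm
        rw [mk3_of_sep hN.hs] at hm
        have hb : ∀ j < 3, a ∉ blk N j := by
          intro j hj hm'
          obtain ⟨g1, g2, g3, g4, g5, g6⟩ := har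
          have : j = pl ∨ j = px ∨ j = pz := by omega
          rcases this with rfl | rfl | rfl
          · rw [hN.hl, mem_Lw] at hm'; exact h8 hm'
          · rw [hN.hx.mem_iff, mem_X] at hm'; omega
          · rw [hN.hz.mem_iff, mem_Zw] at hm'; omega
        simp only [mk3, List.mem_append, List.mem_cons] at hm
        rcases hm with hm | hm | hm | hm | hm
        · exact hb 0 (by omega) hm
        · subst hm; exact ha (by decide)
        · exact hb 1 (by omega) hm
        · subst hm; exact ha (by decide)
        · exact hb 2 (by omega) hm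
      have hn' := h.content H hn
      rw [List.count_eq_zero.2 (fun hm => hn' (blk_subset _ _ _ hm)),
        List.count_eq_zero.2 (fun hm => hn (blk_subset _ _ _ hm))]

end Pool.Agent.Helper2_MV
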