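import Pool.Agent.Helper14_MV.B2

/-!
Words with two separators `9`, `10` and their blocks.
-/

namespace Pool.Agent.Helper2_MV

/-- separators -/
def sep (a : ℕ) : Bool := a == 9 || a == 10

/-- number of separators -/
def sc (l : List ℕ) : ℕ := l.countP sep

/-- the `k`-th block -/
def blk : List ℕ → ℕ → List ℕ
  | [], _ => []
  | a :: l, 0 => if sep a then [] else a :: blk l 0
  | a :: l, k + 1 => if sep a then blk l k else blk l (k + 1)

@[simp] theorem sc_nil : sc [] = 0 := rfl

theorem sc_append (A B : List ℕ) : sc (A ++ B) = sc A + sc B := by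
  simp [sc, List.countP_append]

theorem blk_append_lt (A B : List ℕ) (k : ℕ) (h : k < sc A) : blk (A ++ B) k = blk A k := by
  induction A generalizing k with
  | nil => simp [sc] at h
  | cons a A ih =>
    rw [List.cons_append]
    by_cases ha : sep a = true
    · rw [sc, List.countP_cons_of_pos ha] at h
      cases k with
      | zero => simp [blk, ha]
      | succ k => simp only [blk, ha, if_true]; exact ih k (by rw [sc]; omega)
    · rw [sc, List.countP_cons_of_neg ha] at h
      cases k with
      | zero => simp only [blk, ha]; simp only [Bool.false_eq_true, if_false]; rw [ih 0 h]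
      | succ k => simp only [blk, ha]; simp only [Bool.false_eq_true, if_false]; exact ih (k + 1) h

theorem blk_append_eq (A B : List ℕ) : blk (A ++ B) (sc A) = blk A (sc A) ++ blk B 0 := by
  induction A with
  | nil => simp [blk]
  | cons a A ih =>
    rw [List.cons_append]
    by_cases ha : sep a = true
    · have : sc (a :: A) = sc A + 1 := by rw [sc, List.countP_cons_of_pos ha, sc]
      rw [this]
      simp only [blk, ha, if_true]
      exact ih
    · have : sc (a :: A) = sc A := by rw [sc, List.countP_cons_of_neg ha, sc]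
      rw [this]
      cases h : sc A with
      | zero => rw [h] at ih; simp only [blk, ha]; simp only [Bool.false_eq_true, if_false]; rw [ih]; rfl
      | succ n => rw [h] at ih; simp only [blk, ha]; simp only [Bool.false_eq_true, if_false]; exact ih

theorem blk_append_gt (A B : List ℕ) (k : ℕ) : blk (A ++ B) (sc A + k + 1) = blk B (k + 1) := by
  induction A with
  | nil => simp
  | cons a A ih =>
    rw [List.cons_append]
    by_cases ha : sep a = true
    · have : sc (a :: A) = sc A + 1 := by rw [sc, List.countP_cons_of_pos ha, sc]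
      rw [this]
      simp only [blk, ha, if_true]
      rw [show sc A + 1 + k = sc A + k + 1 by omega]
      exact ih
    · have : sc (a :: A) = sc A := by rw [sc, List.countP_cons_of_neg ha, sc]
      rw [this]
      simp only [blk, ha]; simp only [Bool.false_eq_true, if_false]; exact ih

theorem blk_of_lt (A : List ℕ) (k : ℕ) (h : sc A < k) : blk A k = [] := by
  induction A generalizing k with
  | nil => cases k <;> rfl
  | cons a A ih =>
    by_cases ha : sep a = true
    · have : sc (a :: A) = sc A + 1 := by rw [sc, List.countP_cons_of_pos ha, sc]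
      rw [this] at h
      cases k with
      | zero => omega
      | succ k => simp only [blk, ha, if_true]; exact ih k (by omega)
    · have : sc (a :: A) = sc A := by rw [sc, List.countP_cons_of_neg ha, sc]
      rw [this] at h
      cases k with
      | zero => omega
      | succ k => simp only [blk, ha]; simp only [Bool.false_eq_true, if_false]; exact ih (k + 1) h

/-- no separator -/
def SF (l : List ℕ) : Prop := ∀ a ∈ l, sep a = false

theorem SF.sc {l : List ℕ} (h : SF l) : sc l = 0 := by
  rw [Pool.Agent.Helper2_MV.sc, List.countP_eq_zero]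
  intro a ha
  rw [h a ha]
  decide

theorem sf_of_sc {l : List ℕ} (h : sc l = 0) : SF l := by
  rw [sc, List.countP_eq_zero] at h
  intro a ha
  simpa using h a ha

theorem SF.blk {l : List ℕ} (h : SF l) : blk l 0 = l := by
  induction l with
  | nil => rfl
  | cons a l ih =>
    have ha : sep a = false := h a (by simp)
    simp only [Pool.Agent.Helper2_MV.blk, ha]
    simp only [Bool.false_eq_true, if_false]
    rw [ih (fun b hb => h b (by simp [hb]))]

theorem blk_sf (l : List ℕ) (k : ℕ) : SF (blk l k) := by
  induction l generalizing k with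
  | nil => cases k <;> intro a ha <;> simp [blk] at ha
  | cons a l ih =>
    by_cases ha : sep a = true
    · cases k with
      | zero => simp only [blk, ha, if_true]; intro b hb; simp at hb
      | succ k => simp only [blk, ha, if_true]; exact ih k
    · cases k with
      | zero =>
        simp only [blk, ha]
        simp only [Bool.false_eq_true, if_false]
        intro b hb
        rcases List.mem_cons.1 hb with h | h
        · subst h; simpa using ha
        · exact ih 0 b h
      | succ k => simp only [blk, ha]; simp only [Bool.false_eq_true, if_false]; exact ih (k + 1)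

/-- the block of a factor -/
theorem blk_mid (A Y C : List ℕ) (h : SF Y) :
    blk (A ++ Y ++ C) (sc A) = blk A (sc A) ++ Y ++ blk C 0 := by
  rw [List.append_assoc, blk_append_eq, List.append_assoc]
  congr 1
  have h1 := blk_append_eq Y C
  rw [h.sc, h.blk] at h1
  exact h1

/-- the other blocks do not depend on the factor -/
theorem blk_other (A Y Y' C : List ℕ) (h : SF Y) (h' : SF Y') (k : ℕ) (hk : k ≠ sc A) :
    blk (A ++ Y' ++ C) k = blk (A ++ Y ++ C) k := by
  rw [List.append_assoc, List.append_assoc]
  rcases Nat.lt_or_gt_of_ne hk with h1 | h1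
  · rw [blk_append_lt _ _ _ h1, blk_append_lt _ _ _ h1]
  · obtain ⟨j, rfl⟩ : ∃ j, k = sc A + j + 1 := ⟨k - sc A - 1, by omega⟩
    rw [blk_append_gt, blk_append_gt]
    have e : ∀ Z : List ℕ, SF Z → blk (Z ++ C) (j + 1) = blk C (j + 1) := by
      intro Z hZ
      have := blk_append_gt Z C j
      rwa [hZ.sc, Nat.zero_add] at this
    rw [e _ h, e _ h']

theorem infix_mid (A Y C : List ℕ) (h : SF Y) : Y <:+: blk (A ++ Y ++ C) (sc A) :=
  ⟨blk A (sc A), blk C 0, (blk_mid A Y C h).symm⟩

/-- the block of a factor inside `A` or inside `C` -/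
theorem infix_blk (A Y C F : List ℕ) (hY : SF Y) (hF : SF F) (h : F <:+: A ∨ F <:+: C) :
    ∃ k, F <:+: blk (A ++ Y ++ C) k ∧
      (k = sc A → ∀ a, a ∈ F → a ∈ Y → ¬ (blk (A ++ Y ++ C) (sc A)).Nodup) := by
  rcases h with ⟨P, Q, rfl⟩ | ⟨P, Q, rfl⟩
  · refine ⟨sc P, ?_, ?_⟩
    · have := infix_mid P F (Q ++ Y ++ C) hF
      simpa [List.append_assoc] using this
    · intro hk a ha ha' hn
      have h0 : sc Q = 0 := by
        rw [sc_append, sc_append, hF.sc] at hk
        omega
      have hQ := sf_of_sc h0
      rw [blk_mid _ _ _ hY] at hn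
      have e : blk (P ++ F ++ Q) (sc (P ++ F ++ Q)) = blk P (sc P) ++ (F ++ Q) := by
        rw [← hk, List.append_assoc, blk_append_eq]
        congr 1
        exact SF.blk (fun b hb => by
          rcases List.mem_append.1 hb with h | h
          · exact hF b h
          · exact hQ b h)
      rw [e] at hn
      have h1 : a ∈ blk P (sc P) ++ (F ++ Q) := by simp [ha]
      exact List.disjoint_of_nodup_append (List.nodup_append.1 hn).1 h1 ha'
  · refine ⟨sc (A ++ Y ++ P), ?_, ?_⟩
    · have := infix_mid (A ++ Y ++ P) F Q hF
      simpa [List.append_assoc] using this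
    · intro hk a ha ha' hn
      have h0 : sc P = 0 := by
        rw [sc_append, sc_append, hY.sc] at hk
        omega
      have hP := sf_of_sc h0
      rw [blk_mid _ _ _ hY] at hn
      have e : blk (P ++ F ++ Q) 0 = (P ++ F) ++ blk Q 0 := by
        have h2 : SF (P ++ F) := fun b hb => by
          rcases List.mem_append.1 hb with h | h
          · exact hP b h
          · exact hF b h
        have := blk_append_eq (P ++ F) Q
        rwa [h2.sc, h2.blk] at this
      rw [e, List.append_assoc] at hn
      have h1 : a ∈ (P ++ F) ++ blk Q 0 := by simp [ha]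
      exact List.disjoint_of_nodup_append (List.nodup_append.1 hn).2.1 ha' h1

/-- three blocks -/
def mk3 (b0 b1 b2 : List ℕ) : List ℕ := b0 ++ 9 :: (b1 ++ 10 :: b2)

theorem mk3_sep {b0 b1 b2 : List ℕ} (h0 : SF b0) (h1 : SF b1) (h2 : SF b2) :
    (mk3 b0 b1 b2).filter sep = [9, 10] := by
  have e : ∀ b : List ℕ, SF b → b.filter sep = [] := by
    intro b hb
    rw [List.filter_eq_nil_iff]
    intro a ha
    rw [hb a ha]
    decide
  rw [mk3, List.filter_append, List.filter_cons_of_pos (by decide), List.filter_append,
    List.filter_cons_of_pos (by decide), e _ h0, e _ h1, e _ h2]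
  rfl

theorem mk3_blk0 {b0 b1 b2 : List ℕ} (h0 : SF b0) : blk (mk3 b0 b1 b2) 0 = b0 := by
  have := blk_append_eq b0 (9 :: (b1 ++ 10 :: b2))
  rw [h0.sc, h0.blk] at this
  rw [mk3, this]
  simp [blk, sep]

theorem mk3_blk1 {b0 b1 b2 : List ℕ} (h0 : SF b0) (h1 : SF b1) : blk (mk3 b0 b1 b2) 1 = b1 := by
  have := blk_append_gt b0 (9 :: (b1 ++ 10 :: b2)) 0
  rw [h0.sc] at this
  rw [mk3, show 1 = 0 + 0 + 1 from rfl, this]
  have h2 := blk_append_eq b1 (10 :: b2)
  rw [h1.sc, h1.blk] at h2
  simp only [blk]
  rw [show sep 9 = true from rfl]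
  simp only [if_true]
  rw [h2]
  simp [blk, sep]

theorem mk3_blk2 {b0 b1 b2 : List ℕ} (h0 : SF b0) (h1 : SF b1) (h2 : SF b2) :
    blk (mk3 b0 b1 b2) 2 = b2 := by
  have := blk_append_gt b0 (9 :: (b1 ++ 10 :: b2)) 1
  rw [h0.sc] at this
  rw [mk3, show 2 = 0 + 1 + 1 from rfl, this]
  have h3 := blk_append_gt b1 (10 :: b2) 0
  rw [h1.sc] at h3
  simp only [blk]
  rw [show sep 9 = true from rfl]
  simp only [if_true]
  have h4 : blk (b1 ++ 10 :: b2) 1 = blk (10 :: b2) 1 := h3
  rw [h4]
  simp only [blk]
  rw [show sep 10 = true from rfl]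
  simp only [if_true]
  exact h2.blk

/-- decomposition -/
theorem mk3_of_sep {N : List ℕ} (h : N.filter sep = [9, 10]) :
    N = mk3 (blk N 0) (blk N 1) (blk N 2) := by
  rw [List.filter_eq_cons_iff] at h
  obtain ⟨b0, R, rfl, h0, -, h⟩ := h
  rw [List.filter_eq_cons_iff] at h
  obtain ⟨b1, b2, rfl, h1, -, h⟩ := h
  have g0 : SF b0 := fun a ha => by simpa using h0 a ha
  have g1 : SF b1 := fun a ha => by simpa using h1 a ha
  have g2 : SF b2 := by
    rw [List.filter_eq_nil_iff] at h
    exact fun a ha => by simpa using h a ha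
  have e0 := mk3_blk0 (b1 := b1) (b2 := b2) g0
  have e1 := mk3_blk1 (b2 := b2) g0 g1
  have e2 := mk3_blk2 g0 g1 g2
  rw [mk3] at e0 e1 e2
  rw [e0, e1, e2, mk3]

theorem sc_of_sep {N : List ℕ} (h : N.filter sep = [9, 10]) : sc N = 2 := by
  rw [sc, List.countP_eq_length_filter, h]
  rfl

end Pool.Agent.Helper2_MV
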