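import Pool.Agent.Helper2_MV.Keep

/-!
The orders inside the interleaved block and inside the block `X` are kept.
-/

namespace Pool.Agent.Helper2_MV

open Pool.Agent.Helper14_MV

variable {β : FIC}

/-- the order of two letters -/
theorem ord {g : ℕ → List ℕ} {a b u v : ℕ} {l : List ℕ} (hn : l.Nodup) (ha : a ∈ l)
    (hb : b ∈ l) (hab : a ≠ b) (ga : g a = [u]) (gb : g b = [v])
    (hg : ∀ i ∈ l, i ≠ a → i ≠ b → g i = []) :
    (l.idxOf a < l.idxOf b ∧ l.flatMap g = [u, v]) ∨
      (l.idxOf b < l.idxOf a ∧ l.flatMap g = [v, u]) := by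
  obtain ⟨p, q, rfl⟩ := List.append_of_mem ha
  have hnp := List.nodup_append.1 hn
  have hnq := List.nodup_cons.1 hnp.2.1
  have hap : a ∉ p := fun h => List.disjoint_of_nodup_append hn h (by simp)
  have ia : (p ++ a :: q).idxOf a = p.length := by
    rw [List.idxOf_append_of_notMem hap, List.idxOf_cons_self, Nat.add_zero]
  rcases List.mem_append.1 hb with hbp | hbq
  · right
    constructor
    · rw [ia, List.idxOf_append_of_mem hbp]
      exact List.idxOf_lt_length_iff.2 hbp
    · rw [List.flatMap_append, List.flatMap_cons, ga]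
      have e1 : p.flatMap g = g b := flatMap_single p hnp.1 hbp (fun i hi hne =>
        hg i (by simp [hi]) (fun h => hap (h ▸ hi)) hne)
      have hbq : b ∉ q := fun h => List.disjoint_of_nodup_append hn hbp (by simp [h])
      have e2 : q.flatMap g = [] := by
        rw [List.flatMap_eq_nil_iff]
        intro i hi
        exact hg i (by simp [hi]) (fun h => hnq.1 (h ▸ hi)) (fun h => hbq (h ▸ hi))
      rw [e1, e2, gb]
      rfl
  · left
    have hbq' : b ∈ q := by
      rcases List.mem_cons.1 hbq with h | h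
      · exact absurd h.symm hab
      · exact h
    have hbp : b ∉ p := fun h => List.disjoint_of_nodup_append hn h (by simp [hbq'])
    constructor
    · rw [ia, List.idxOf_append_of_notMem hbp, List.idxOf_cons_ne _ hab]
      omega
    · rw [List.flatMap_append, List.flatMap_cons, ga]
      have e1 : p.flatMap g = [] := by
        rw [List.flatMap_eq_nil_iff]
        intro i hi
        exact hg i (by simp [hi]) (fun h => hap (h ▸ hi)) (fun h => hbp (h ▸ hi))
      have e2 : q.flatMap g = g b := flatMap_single q hnq.2 hbq' (fun i hi hne =>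
        hg i (by simp [hi]) (fun h => hnq.1 (h ▸ hi)) hne)
      rw [e1, e2, gb]
      rfl

theorem eq_of_idx {X X' : List ℕ} (hn : X.Nodup) (hp : X'.Perm X)
    (h : ∀ a ∈ X, ∀ b ∈ X, a ≠ b → (X.idxOf a < X.idxOf b ↔ X'.idxOf a < X'.idxOf b)) :
    X' = X := by
  induction X generalizing X' with
  | nil => exact List.perm_nil.1 hp
  | cons c X ih =>
    match X', hp with
    | [], hp => exact absurd hp.length_eq (by simp)
    | c' :: X', hp =>
      have hn' : (c' :: X').Nodup := hp.nodup_iff.2 hn
      have hcc : c' = c := by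
        by_contra hne
        have h1 : c' ∈ c :: X := hp.mem_iff.1 (by simp)
        have h2 := (h c (by simp) c' h1 (Ne.symm hne)).1 (by
          rw [List.idxOf_cons_self, List.idxOf_cons_ne _ (Ne.symm hne)]; omega)
        rw [List.idxOf_cons_self] at h2
        omega
      subst hcc
      congr 1
      rw [List.nodup_cons] at hn hn'
      refine ih hn.2 ((List.perm_cons _).1 hp) ?_
      intro a ha b hb hab
      have h1 := h a (by simp [ha]) b (by simp [hb]) hab
      have na : c' ≠ a := fun e => hn.1 (e ▸ ha)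
      have nb : c' ≠ b := fun e => hn.1 (e ▸ hb)
      rw [List.idxOf_cons_ne _ na, List.idxOf_cons_ne _ nb, List.idxOf_cons_ne _ na,
        List.idxOf_cons_ne _ nb] at h1
      omega

/-- images of the words of the family -/
theorem flatMap_W {pl px pz : ℕ} (har : Arr pl px pz) {N : List ℕ}
    (hs : N.filter sep = [9, 10]) (g : ℕ → List ℕ) (g9 : g 9 = [9]) (g10 : g 10 = [10]) :
    N.flatMap g = W pl px ((blk N pl).flatMap g) ((blk N px).flatMap g)
      ((blk N pz).flatMap g) := by
  conv_lhs => rw [mk3_of_sep hs]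
  rw [mk3, List.flatMap_append, List.flatMap_cons, List.flatMap_append, List.flatMap_cons, g9,
    g10]
  obtain ⟨g1, g2, g3, g4, g5, g6⟩ := har
  have e : ∀ k < 3, sel pl px ((blk N pl).flatMap g) ((blk N px).flatMap g)
      ((blk N pz).flatMap g) k = (blk N k).flatMap g := by
    intro k hk
    unfold sel
    by_cases h1 : k = pl
    · rw [if_pos h1, h1]
    · rw [if_neg h1]
      by_cases h2 : k = px
      · rw [if_pos h2, h2]
      · rw [if_neg h2]
        have : k = pz := by omega
        rw [this]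
  rw [W, e 0 (by omega), e 1 (by omega), e 2 (by omega)]
  rfl

/-- the substitution for two letters -/
def g2 (a b : ℕ) (i : ℕ) : List ℕ :=
  if i = a then [0] else if i = b then [2] else if i = 9 then [9] else if i = 10 then [10] else []

/-- the substitution for three letters -/
def g3 (a b c : ℕ) (i : ℕ) : List ℕ :=
  if i = a then [0] else if i = b then [1] else if i = c then [2] else
    if i = 9 then [9] else if i = 10 then [10] else []

theorem sf_ne {l : List ℕ} (h : SF l) {i : ℕ} (hi : i ∈ l) : i ≠ 9 ∧ i ≠ 10 := by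
  have := h i hi
  constructor <;> rintro rfl <;> simp [sep] at this

/-- the order in the interleaved block -/
theorem ordL (H : Iso3 β) {pl px pz : ℕ} (har : Arr pl px pz)
    (h1 : ¬ RR β (W pl px [0, 2] [0] [2]) (W pl px [2, 0] [0] [2])) {N N' : List ℕ}
    (hN : Base pl px pz N) (h : RR β N N') {a b : ℕ} (ha : a < 4) (hb : 4 ≤ b) (hb8 : b ≤ 8) :
    (Lw.idxOf a < Lw.idxOf b → (blk N' pl).idxOf a < (blk N' pl).idxOf b) ∧
      (Lw.idxOf b < Lw.idxOf a → (blk N' pl).idxOf b < (blk N' pl).idxOf a) := by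
  have hN' := h.sep H hN.hs
  have hpl := perm_keep H har hN h pl har.1
  have hpx := perm_keep H har hN h px har.2.1
  have hpz := perm_keep H har hN h pz har.2.2.1
  rw [hN.hl] at hpl
  have hpx' := hpx.trans hN.hx
  have hpz' := hpz.trans hN.hz
  have hab : a ≠ b := by omega
  have ga : g2 a b a = [0] := by simp [g2]
  have gb : g2 a b b = [2] := by simp [g2, Ne.symm hab]
  have go : ∀ i, i ≠ a → i ≠ b → i ≠ 9 → i ≠ 10 → g2 a b i = [] := by
    intro i h1 h2 h3 h4
    simp [g2, h1, h2, h3, h4]
  have gg9 : g2 a b 9 = [9] := by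
    have : (9 : ℕ) ≠ a := by omega
    have h' : (9 : ℕ) ≠ b := by omega
    simp [g2, this, h']
  have gg10 : g2 a b 10 = [10] := by
    have : (10 : ℕ) ≠ a := by omega
    have h' : (10 : ℕ) ≠ b := by omega
    simp [g2, this, h']
  have hr := h.sub (g2 a b)
  rw [flatMap_W har hN.hs _ gg9 gg10, flatMap_W har hN' _ gg9 gg10] at hr
  have ex : ∀ M : List ℕ, (blk M px).Perm [0, 1, 2, 3] → (blk M px).flatMap (g2 a b) = [0] := by
    intro M hM
    rw [← ga]
    refine flatMap_single _ (hM.nodup_iff.2 (by decide)) (hM.mem_iff.2 (mem_X.2 ha)) ?_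
    intro i hi hne
    have h1 := sf_ne (blk_sf M px) hi
    rw [hM.mem_iff, mem_X] at hi
    exact go i hne (by omega) h1.1 h1.2
  have ez : ∀ M : List ℕ, (blk M pz).Perm Zw → (blk M pz).flatMap (g2 a b) = [2] := by
    intro M hM
    rw [← gb]
    refine flatMap_single _ (hM.nodup_iff.2 (by decide)) (hM.mem_iff.2 (mem_Zw.2 ⟨hb, hb8⟩)) ?_
    intro i hi hne
    have h1 := sf_ne (blk_sf M pz) hi
    rw [hM.mem_iff, mem_Zw] at hi
    exact go i (by omega) hne h1.1 h1.2
  rw [ex N hN.hx, ex N' hpx', ez N hN.hz, ez N' hpz', hN.hl] at hr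
  have o1 := ord (g := g2 a b) (a := a) (b := b) (l := Lw) (by decide)
    (mem_Lw.2 (by omega)) (mem_Lw.2 hb8) hab ga gb (fun i hi n1 n2 => by
      rw [mem_Lw] at hi
      exact go i n1 n2 (by omega) (by omega))
  have o2 := ord (g := g2 a b) (a := a) (b := b) (l := blk N' pl) (hpl.nodup_iff.2 (by decide))
    (hpl.mem_iff.2 (mem_Lw.2 (by omega))) (hpl.mem_iff.2 (mem_Lw.2 hb8)) hab ga gb
    (fun i hi n1 n2 => by
      rw [hpl.mem_iff, mem_Lw] at hi
      exact go i n1 n2 (by omega) (by omega))
  rcases o1 with ⟨i1, e1⟩ | ⟨i1, e1⟩ <;> rcases o2 with ⟨i2, e2⟩ | ⟨i2, e2⟩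
  · exact ⟨fun _ => i2, fun h' => by omega⟩
  · rw [e1, e2] at hr
    exact absurd hr h1
  · rw [e1, e2] at hr
    exact absurd hr.symm h1
  · exact ⟨fun h' => by omega, fun _ => i2⟩

/-- the interleaved block is kept -/
theorem keepL (H : Iso3 β) {pl px pz : ℕ} (har : Arr pl px pz)
    (h1 : ¬ RR β (W pl px [0, 2] [0] [2]) (W pl px [2, 0] [0] [2])) {N N' : List ℕ}
    (hN : Base pl px pz N) (h : RR β N N') : blk N' pl = Lw := by
  have hpl := perm_keep H har hN h pl har.1
  rw [hN.hl] at hpl
  have k := fun {a b : ℕ} => ordL H har h1 hN h (a := a) (b := b)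
  have i1 := (k (a := 0) (b := 4) (by omega) (by omega) (by omega)).2 (by decide)
  have i2 := (k (a := 0) (b := 5) (by omega) (by omega) (by omega)).1 (by decide)
  have i3 := (k (a := 1) (b := 5) (by omega) (by omega) (by omega)).2 (by decide)
  have i4 := (k (a := 1) (b := 6) (by omega) (by omega) (by omega)).1 (by decide)
  have i5 := (k (a := 2) (b := 6) (by omega) (by omega) (by omega)).2 (by decide)
  have i6 := (k (a := 2) (b := 7) (by omega) (by omega) (by omega)).1 (by decide)
  have i7 := (k (a := 3) (b := 7) (by omega) (by omega) (by omega)).2 (by decide)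
  have i8 := (k (a := 3) (b := 8) (by omega) (by omega) (by omega)).1 (by decide)
  have hlen : (blk N' pl).length = 9 := hpl.length_eq
  have i9 : (blk N' pl).idxOf 8 < 9 := by
    rw [← hlen]
    exact List.idxOf_lt_length_iff.2 (hpl.mem_iff.2 (by decide))
  refine eq_of_idx (by decide) hpl ?_
  intro a ha b hb hab
  rw [mem_Lw] at ha hb
  have e4 : (blk N' pl).idxOf 4 = 0 := by omega
  have e0 : (blk N' pl).idxOf 0 = 1 := by omega
  have e5 : (blk N' pl).idxOf 5 = 2 := by omega
  have e1 : (blk N' pl).idxOf 1 = 3 := by omega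
  have e6 : (blk N' pl).idxOf 6 = 4 := by omega
  have e2 : (blk N' pl).idxOf 2 = 5 := by omega
  have e7 : (blk N' pl).idxOf 7 = 6 := by omega
  have e3 : (blk N' pl).idxOf 3 = 7 := by omega
  have e8 : (blk N' pl).idxOf 8 = 8 := by omega
  have hh : ∀ c ≤ 8, (blk N' pl).idxOf c = Lw.idxOf c := by
    intro c hc
    interval_cases c
    · rw [e0]; decide
    · rw [e1]; decide
    · rw [e2]; decide
    · rw [e3]; decide
    · rw [e4]; decide
    · rw [e5]; decide
    · rw [e6]; decide
    · rw [e7]; decide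
    · rw [e8]; decide
  rw [hh a ha, hh b hb]

/-- the order in the block `X` is kept -/
theorem keepX (H : Iso3 β) {pl px pz : ℕ} (har : Arr pl px pz)
    (h1 : ¬ RR β (W pl px [0, 2] [0] [2]) (W pl px [2, 0] [0] [2]))
    (h2 : ¬ RR β (W pl px [0, 2, 1] [0, 1] [2]) (W pl px [0, 2, 1] [1, 0] [2]))
    {N N' : List ℕ} (hN : Base pl px pz N) (h : RR β N N') : blk N' px = blk N px := by
  have hN' := h.sep H hN.hs
  have hL := keepL H har h1 hN h
  have hpx := perm_keep H har hN h px har.2.1
  have hpz := perm_keep H har hN h pz har.2.2.1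
  have hpx' := hpx.trans hN.hx
  have hpz' := hpz.trans hN.hz
  have key : ∀ a < 4, ∀ b < 4, a < b →
      ((blk N px).idxOf a < (blk N px).idxOf b ↔ (blk N' px).idxOf a < (blk N' px).idxOf b) := by
    intro a ha b hb hlt
    have hab : a ≠ b := by omega
    have hac : a ≠ 4 + b := by omega
    have hbc : b ≠ 4 + b := by omega
    have ga : g3 a b (4 + b) a = [0] := by simp [g3]
    have gb : g3 a b (4 + b) b = [1] := by simp [g3, Ne.symm hab]
    have gc : g3 a b (4 + b) (4 + b) = [2] := by
      unfold g3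
      rw [if_neg (Ne.symm hac), if_neg (Ne.symm hbc), if_pos rfl]
    have go : ∀ i, i ≠ a → i ≠ b → i ≠ 4 + b → i ≠ 9 → i ≠ 10 → g3 a b (4 + b) i = [] := by
      intro i h1 h2 h3 h4 h5
      unfold g3
      rw [if_neg h1, if_neg h2, if_neg h3, if_neg h4, if_neg h5]
    have gg9 : g3 a b (4 + b) 9 = [9] := by
      unfold g3
      rw [if_neg (by omega), if_neg (by omega), if_neg (by omega), if_pos rfl]
    have gg10 : g3 a b (4 + b) 10 = [10] := by
      unfold g3
      rw [if_neg (by omega), if_neg (by omega), if_neg (by omega), if_neg (by omega), if_pos rfl]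
    have hr := h.sub (g3 a b (4 + b))
    rw [flatMap_W har hN.hs _ gg9 gg10, flatMap_W har hN' _ gg9 gg10, hL, hN.hl] at hr
    have el : Lw.flatMap (g3 a b (4 + b)) = [0, 2, 1] := by
      interval_cases b <;> interval_cases a <;> first | omega | decide
    have ez : ∀ M : List ℕ, (blk M pz).Perm Zw →
        (blk M pz).flatMap (g3 a b (4 + b)) = [2] := by
      intro M hM
      rw [← gc]
      refine flatMap_single _ (hM.nodup_iff.2 (by decide))
        (hM.mem_iff.2 (mem_Zw.2 ⟨by omega, by omega⟩)) ?_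
      intro i hi hne
      have h1 := sf_ne (blk_sf M pz) hi
      rw [hM.mem_iff, mem_Zw] at hi
      exact go i (by omega) (by omega) hne h1.1 h1.2
    rw [el, ez N hN.hz, ez N' hpz'] at hr
    have o : ∀ M : List ℕ, (blk M px).Perm [0, 1, 2, 3] →
        ((blk M px).idxOf a < (blk M px).idxOf b ∧
          (blk M px).flatMap (g3 a b (4 + b)) = [0, 1]) ∨
        ((blk M px).idxOf b < (blk M px).idxOf a ∧
          (blk M px).flatMap (g3 a b (4 + b)) = [1, 0]) := by
      intro M hM
      refine ord (hM.nodup_iff.2 (by decide)) (hM.mem_iff.2 (mem_X.2 ha))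
        (hM.mem_iff.2 (mem_X.2 hb)) hab ga gb ?_
      intro i hi n1 n2
      rw [hM.mem_iff, mem_X] at hi
      exact go i n1 n2 (by omega) (by omega) (by omega)
    rcases o N hN.hx with ⟨i1, e1⟩ | ⟨i1, e1⟩ <;> rcases o N' hpx' with ⟨i2, e2⟩ | ⟨i2, e2⟩
    · exact ⟨fun _ => i2, fun _ => i1⟩
    · rw [e1, e2] at hr
      exact absurd hr h2
    · rw [e1, e2] at hr
      exact absurd hr.symm h2
    · constructor <;> intro h' <;> omega
  refine eq_of_idx (hN.hx.nodup_iff.2 (by decide)) hpx ?_
  intro a ha b hb hab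
  have ne : ∀ M : List ℕ, (blk M px).Perm [0, 1, 2, 3] →
      (blk M px).idxOf a ≠ (blk M px).idxOf b := by
    intro M hM h'
    have h1 : a ∈ blk M px := by
      rw [hM.mem_iff]; rwa [hN.hx.mem_iff] at ha
    exact hab (List.idxOf_inj h1 |>.1 h')
  have n1 := ne N hN.hx
  have n2 := ne N' hpx'
  rw [hN.hx.mem_iff, mem_X] at ha hb
  rcases Nat.lt_or_gt_of_ne hab with hlt | hlt
  · exact key a ha b hb hlt
  · have := key b hb a ha hlt
    omega

theorem preserve (H : Iso3 β) {pl px pz : ℕ} (har : Arr pl px pz)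
    (h1 : ¬ RR β (W pl px [0, 2] [0] [2]) (W pl px [2, 0] [0] [2]))
    (h2 : ¬ RR β (W pl px [0, 2, 1] [0, 1] [2]) (W pl px [0, 2, 1] [1, 0] [2]))
    {N N' : List ℕ} (hN : Base pl px pz N) (h : RR β N N') :
    Base pl px pz N' ∧ blk N' px = blk N px := by
  have hx := keepX H har h1 h2 hN h
  exact ⟨⟨h.sep H hN.hs, keepL H har h1 hN h, hx ▸ hN.hx,
    (perm_keep H har hN h pz har.2.2.1).trans hN.hz⟩, hx⟩

end Pool.Agent.Helper2_MV
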