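import Mathlib

/-!
Arrangements of four letters and the four classes which are not changed by rearranging proper
intervals.
-/

namespace Pool.Agent.Helper2_MV

/-- all arrangements of `0, 1, 2, 3` -/
def P24 : List (List ℕ) :=
  [[0,1,2,3],[0,1,3,2],[0,2,1,3],[0,2,3,1],[0,3,1,2],[0,3,2,1],
   [1,0,2,3],[1,0,3,2],[1,2,0,3],[1,2,3,0],[1,3,0,2],[1,3,2,0],
   [2,0,1,3],[2,0,3,1],[2,1,0,3],[2,1,3,0],[2,3,0,1],[2,3,1,0],
   [3,0,1,2],[3,0,2,1],[3,1,0,2],[3,1,2,0],[3,2,0,1],[3,2,1,0]]

theorem P24_aux' : ∀ a b c d : Fin 4, [(a : ℕ), b, c, d].Nodup → [(a : ℕ), b, c, d] ∈ P24 := by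
  decide +kernel

theorem P24_aux : ∀ a < 4, ∀ b < 4, ∀ c < 4, ∀ d < 4, [a, b, c, d].Nodup → [a, b, c, d] ∈ P24 := by
  intro a ha b hb c hc d hd
  exact P24_aux' ⟨a, ha⟩ ⟨b, hb⟩ ⟨c, hc⟩ ⟨d, hd⟩

theorem mem_P24 {l : List ℕ} (h : l.Perm [0, 1, 2, 3]) : l ∈ P24 := by
  have hn : l.Nodup := h.nodup_iff.2 (by decide)
  have hm : ∀ a ∈ l, a < 4 := by
    intro a ha
    have := h.mem_iff.1 ha
    simp at this
    omega
  have hl := h.length_eq
  match l, hl with
  | [a, b, c, d], _ =>
    exact P24_aux a (hm a (by simp)) b (hm b (by simp)) c (hm c (by simp)) d (hm d (by simp)) hn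

/-- the class of an arrangement -/
def cls (l : List ℕ) : ℕ :=
  if l = [1, 3, 0, 2] then 0 else if l = [2, 0, 3, 1] then 1 else
    if l.idxOf 0 < l.idxOf 3 then 2 else 3

/-- the possible images -/
def opts : List (List ℕ) := [[], [0], [1], [2], [3]]

/-- the intervals -/
def ivs : List (List ℕ) :=
  [[], [0], [1], [2], [3], [0,1], [1,2], [2,3], [0,1,2], [1,2,3], [0,1,2,3]]

/-- the function with given values -/
def tup (y0 y1 y2 y3 : List ℕ) (i : ℕ) : List ℕ :=
  if i = 0 then y0 else if i = 1 then y1 else if i = 2 then y2 else y3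

/-- one check -/
def chk1 (s s' Y Y' X : List ℕ) (a : ℕ) : Bool :=
  !((X.drop a).take Y.length == Y) ||
    (cls X == cls (X.take a ++ Y' ++ X.drop (a + Y.length)) ||
      (X == s && X.take a ++ Y' ++ X.drop (a + Y.length) == s'))

/-- finite check -/
def chk (s s' : List ℕ) : Bool :=
  opts.all fun y0 => opts.all fun y1 => opts.all fun y2 => opts.all fun y3 =>
    !(ivs.contains (y0 ++ y1 ++ y2 ++ y3)) ||
      (P24.all fun X => (List.range 5).all fun a =>
        chk1 s s' (s.flatMap (tup y0 y1 y2 y3)) (s'.flatMap (tup y0 y1 y2 y3)) X a)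

theorem chk20 : chk [0, 1, 2, 3] [1, 3, 0, 2] = true := by decide +kernel
theorem chk02 : chk [1, 3, 0, 2] [0, 1, 2, 3] = true := by decide +kernel
theorem chk01 : chk [1, 3, 0, 2] [2, 0, 3, 1] = true := by decide +kernel
theorem chk10 : chk [2, 0, 3, 1] [1, 3, 0, 2] = true := by decide +kernel
theorem chk13 : chk [2, 0, 3, 1] [3, 2, 1, 0] = true := by decide +kernel
theorem chk31 : chk [3, 2, 1, 0] [2, 0, 3, 1] = true := by decide +kernel
theorem chk23 : chk [0, 1, 2, 3] [3, 2, 1, 0] = true := by decide +kernel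
theorem chk32 : chk [3, 2, 1, 0] [0, 1, 2, 3] = true := by decide +kernel

theorem infix_ivs : ∀ p ≤ 4, ∀ k ≤ 4, (([0, 1, 2, 3] : List ℕ).drop p).take k ∈ ivs := by
  decide

theorem mem_ivs {l : List ℕ} (h : l <:+: [0, 1, 2, 3]) : l ∈ ivs := by
  obtain ⟨p, q, hpq⟩ := h
  have h1 : l = (([0, 1, 2, 3] : List ℕ).drop p.length).take l.length := by
    rw [← hpq, List.append_assoc, List.drop_left, List.take_left]
  have h2 := congrArg List.length hpq
  simp only [List.length_append, List.length_cons, List.length_nil] at h2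
  rw [h1]
  exact infix_ivs _ (by omega) _ (by omega)

theorem mem_opts {l : List ℕ} (h : l.length ≤ 1) (h' : ∀ a ∈ l, a < 4) : l ∈ opts := by
  match l, h with
  | [], _ => simp [opts]
  | [a], _ =>
    have : a < 4 := h' a (by simp)
    interval_cases a <;> simp [opts]

/-- the finite step -/
theorem fin_step {s s' : List ℕ} (hc : chk s s' = true) (y : ℕ → List ℕ)
    (hy : ∀ i < 4, (y i).length ≤ 1) (hl : ∀ i < 4, ∀ a ∈ y i, a < 4)
    (hinf : y 0 ++ y 1 ++ y 2 ++ y 3 <:+: [0, 1, 2, 3]) {X p q : List ℕ}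
    (hX : X.Perm [0, 1, 2, 3]) (hXe : X = p ++ s.flatMap y ++ q)
    (hs : ∀ i ∈ s, i < 4) (hs' : ∀ i ∈ s', i < 4) :
    cls X = cls (p ++ s'.flatMap y ++ q) ∨ (X = s ∧ p ++ s'.flatMap y ++ q = s') := by
  have ht : ∀ t : List ℕ, (∀ i ∈ t, i < 4) →
      t.flatMap (tup (y 0) (y 1) (y 2) (y 3)) = t.flatMap y := by
    intro t htt
    apply List.flatMap_congr
    intro i hi
    have := htt i hi
    interval_cases i <;> simp [tup]
  unfold chk at hc
  rw [List.all_eq_true] at hc
  have h0 := hc _ (mem_opts (hy 0 (by omega)) (hl 0 (by omega)))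
  rw [List.all_eq_true] at h0
  have h1 := h0 _ (mem_opts (hy 1 (by omega)) (hl 1 (by omega)))
  rw [List.all_eq_true] at h1
  have h2 := h1 _ (mem_opts (hy 2 (by omega)) (hl 2 (by omega)))
  rw [List.all_eq_true] at h2
  have h3 := h2 _ (mem_opts (hy 3 (by omega)) (hl 3 (by omega)))
  have hiv : ivs.contains (y 0 ++ y 1 ++ y 2 ++ y 3) = true :=
    List.contains_iff_mem.2 (mem_ivs hinf)
  rw [hiv, Bool.not_true, Bool.false_or, List.all_eq_true] at h3
  have h4 := h3 X (mem_P24 hX)
  rw [List.all_eq_true] at h4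
  have hlen : p.length ≤ 4 := by
    have e1 := congrArg List.length hXe
    have e2 := hX.length_eq
    simp only [List.length_append, List.length_cons, List.length_nil] at e1 e2
    omega
  have h5 := h4 p.length (List.mem_range.2 (by omega))
  rw [ht s hs, ht s' hs'] at h5
  have e1 : X.take p.length = p := by rw [hXe, List.append_assoc, List.take_left]
  have e2 : (X.drop p.length).take (s.flatMap y).length = s.flatMap y := by
    rw [hXe, List.append_assoc, List.drop_left, List.take_left]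
  have e3 : X.drop (p.length + (s.flatMap y).length) = q := by
    rw [hXe, ← List.length_append, List.drop_left]
  unfold chk1 at h5
  rw [e1, e2, e3] at h5
  simp only [BEq.rfl, Bool.not_true, Bool.false_or, Bool.or_eq_true, Bool.and_eq_true,
    beq_iff_eq] at h5
  exact h5

end Pool.Agent.Helper2_MV
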