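import Pool.Agent.Helper2_MV.Order

/-!
The pentagon.
-/

namespace Pool.Agent.Helper2_MV

open Pool.Agent.Helper14_MV

/-- the property -/
def PP (pl px pz : ℕ) (c : ℕ → Prop) (w : Word) : Prop :=
  Base pl px pz w.toList ∧ c (cls (blk w.toList px))

/-- the largest fully invariant congruence which keeps the family and the value of `k` at the
class -/
def FK (pl px pz : ℕ) (k : ℕ → ℕ) : FIC where
  r := fun u v => ∀ c : ℕ, (gam (PP pl px pz (fun j => k j = c))).r u v
  refl := fun _ _ => FIC.refl _ _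
  symm := fun h c => FIC.symm _ (h c)
  trans := fun h h' c => FIC.trans _ (h c) (h' c)
  mul := fun h h' c => FIC.mul _ (h c) (h' c)
  sub := fun φ _ _ h c => FIC.sub _ φ (h c)

theorem FK.keep {pl px pz : ℕ} {k : ℕ → ℕ} {u v : Word} (h : (FK pl px pz k).r u v) (c : ℕ) :
    PP pl px pz (fun j => k j = c) u ↔ PP pl px pz (fun j => k j = c) v := by
  have := h c (MonoidHom.id _) 1 1
  simpa using this

/-- the theory of `V` is below all these congruences -/
theorem le_FK {β : FIC} (H : Iso3 β) {pl px pz : ℕ} (har : Arr pl px pz)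
    (h1 : ¬ RR β (W pl px [0, 2] [0] [2]) (W pl px [2, 0] [0] [2]))
    (h2 : ¬ RR β (W pl px [0, 2, 1] [0, 1] [2]) (W pl px [0, 2, 1] [1, 0] [2]))
    (k : ℕ → ℕ) : β ≤ FK pl px pz k := by
  have key : ∀ (w w' : Word) (c : ℕ → Prop), β.r w w' → PP pl px pz c w → PP pl px pz c w' := by
    intro w w' c hw hP
    have hr : RR β w.toList w'.toList := hw
    obtain ⟨h3, h4⟩ := preserve H har h1 h2 hP.1 hr
    refine ⟨h3, ?_⟩
    rw [h4]
    exact hP.2
  intro u v huv c φ m q
  have h3 : β.r (m * φ u * q) (m * φ v * q) := β.mul (β.mul (β.refl m) (β.sub φ huv)) (β.refl q)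
  exact ⟨key _ _ _ h3, key _ _ _ (β.symm h3)⟩

/-- the words of the pentagon -/
def ww (pl px : ℕ) (s : List ℕ) : Word := FreeMonoid.ofList (W pl px Lw s Zw)

theorem ww_rel {pl px pz : ℕ} (har : Arr pl px pz) {s s' : List ℕ}
    (hs : s.Perm [0, 1, 2, 3]) (hs' : s'.Perm [0, 1, 2, 3]) (hchk : chk s s' = true)
    (hchk' : chk s' s = true) (k : ℕ → ℕ) (hk : k (cls s) = k (cls s')) :
    (FK pl px pz k).r (ww pl px s) (ww pl px s') := by
  intro c φ m q
  have e : ∀ t : List ℕ, (m * φ (ww pl px t) * q).toList =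
      m.toList ++ (W pl px Lw t Zw).flatMap (fun i => (φ (FreeMonoid.of i)).toList) ++
        q.toList := by
    intro t
    rw [FreeMonoid.toList_mul, FreeMonoid.toList_mul, toList_hom]
    rfl
  constructor
  · rintro ⟨h1, h2⟩
    rw [e] at h1 h2
    have := step har hs hs' hchk (fun j => k j = c) (fun h => hk ▸ h) _ _ _ h1 h2
    refine ⟨?_, ?_⟩
    · rw [e]; exact this.1
    · rw [e]; exact this.2
  · rintro ⟨h1, h2⟩
    rw [e] at h1 h2
    have := step har hs' hs hchk' (fun j => k j = c) (fun h => hk.symm ▸ h) _ _ _ h1 h2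
    refine ⟨?_, ?_⟩
    · rw [e]; exact this.1
    · rw [e]; exact this.2

theorem base_ww {pl px pz : ℕ} (har : Arr pl px pz) {s : List ℕ} (hs : s.Perm [0, 1, 2, 3]) :
    Base pl px pz (ww pl px s).toList ∧ blk (ww pl px s).toList px = s := by
  obtain ⟨g1, g2, g3, g4, g5, g6⟩ := har
  have e : (ww pl px s).toList = mk3 (sel pl px Lw s Zw 0) (sel pl px Lw s Zw 1)
    (sel pl px Lw s Zw 2) := rfl
  have sfs : ∀ k, SF (sel pl px Lw s Zw k) := by
    intro k
    unfold sel
    by_cases h1 : k = pl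
    · rw [if_pos h1]
      intro a ha
      rw [mem_Lw] at ha
      interval_cases a <;> decide
    · rw [if_neg h1]
      by_cases h2 : k = px
      · rw [if_pos h2]
        intro a ha
        rw [hs.mem_iff, mem_X] at ha
        interval_cases a <;> decide
      · rw [if_neg h2]
        intro a ha
        rw [mem_Zw] at ha
        obtain ⟨ha1, ha2⟩ := ha
        interval_cases a <;> decide
  have hb : ∀ k < 3, blk (ww pl px s).toList k = sel pl px Lw s Zw k := by
    intro k hk
    rw [e]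
    interval_cases k
    · exact mk3_blk0 (sfs 0)
    · exact mk3_blk1 (sfs 0) (sfs 1)
    · exact mk3_blk2 (sfs 0) (sfs 1) (sfs 2)
  have ex : sel pl px Lw s Zw px = s := by simp [sel, Ne.symm g4]
  have el : sel pl px Lw s Zw pl = Lw := by simp [sel]
  have ez : sel pl px Lw s Zw pz = Zw := by simp [sel, Ne.symm g5, Ne.symm g6]
  refine ⟨⟨?_, ?_, ?_, ?_⟩, ?_⟩
  · rw [e]; exact mk3_sep (sfs 0) (sfs 1) (sfs 2)
  · rw [hb pl g1, el]
  · rw [hb px g2, ex]; exact hs
  · rw [hb pz g3, ez]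
  · rw [hb px g2, ex]

/-- `12|3|4` -/
def kr (j : ℕ) : ℕ := if j = 1 then 0 else j
/-- `12|34` -/
def kt (j : ℕ) : ℕ := if j = 0 ∨ j = 1 then 0 else 2
/-- `13|24` -/
def ks (j : ℕ) : ℕ := if j = 0 ∨ j = 2 then 0 else 1

theorem kr_two {j : ℕ} (h : kr j = 2) : j = 2 := by
  unfold kr at h
  by_cases h7 : j = 1
  · rw [if_pos h7] at h; omega
  · rw [if_neg h7] at h; exact h

theorem ks_kt {j : ℕ} (h : ks j = 0) (h' : kt j = 2) : j = 2 := by
  unfold ks at h
  unfold kt at h'
  by_cases h1 : j = 0 ∨ j = 2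
  · by_cases h2 : j = 0 ∨ j = 1
    · rw [if_pos h2] at h'; omega
    · omega
  · rw [if_neg h1] at h; omega

/-- **the pin lemma** -/
theorem pin {β : FIC} (hm : ModF β) (H : Iso3 β) {pl px pz : ℕ} (har : Arr pl px pz) :
    RR β (W pl px [0, 2] [0] [2]) (W pl px [2, 0] [0] [2]) ∨
      RR β (W pl px [0, 2, 1] [0, 1] [2]) (W pl px [0, 2, 1] [1, 0] [2]) := by
  by_contra hcon
  rw [not_or] at hcon
  obtain ⟨h1, h2⟩ := hcon
  have p0 : ([1, 3, 0, 2] : List ℕ).Perm [0, 1, 2, 3] := by decide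
  have p1 : ([2, 0, 3, 1] : List ℕ).Perm [0, 1, 2, 3] := by decide
  have p2 : ([0, 1, 2, 3] : List ℕ).Perm [0, 1, 2, 3] := List.Perm.refl _
  have p3 : ([3, 2, 1, 0] : List ℕ).Perm [0, 1, 2, 3] := by decide
  have hle : FK pl px pz kr ≤ FK pl px pz kt := by
    intro u v h c φ m q
    have e : ∀ w : Word, PP pl px pz (fun j => kt j = c) w ↔
        (∃ d, (∃ j, kr j = d ∧ kt j = c) ∧ PP pl px pz (fun j => kr j = d) w) := by
      intro w
      constructor
      · rintro ⟨hb, hc⟩
        exact ⟨kr (cls (blk w.toList px)), ⟨_, rfl, hc⟩, hb, rfl⟩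
      · rintro ⟨d, ⟨j, hj1, hj2⟩, hb, hd⟩
        refine ⟨hb, ?_⟩
        have : kt (cls (blk w.toList px)) = kt j := by
          have h3 : kr (cls (blk w.toList px)) = kr j := by rw [hj1]; exact hd
          have h4 : ∀ i, kt i = if kr i = 0 then 0 else 2 := by
            intro i
            unfold kt kr
            by_cases h5 : i = 1
            · simp [h5]
            · by_cases h6 : i = 0
              · simp [h6]
              · simp [h5, h6]
          rw [h4, h4 j, h3]
        show kt (cls (blk w.toList px)) = c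
        rw [this, hj2]
    rw [e, e]
    constructor
    · rintro ⟨d, hd, hP⟩
      exact ⟨d, hd, (h d φ m q).1 hP⟩
    · rintro ⟨d, hd, hP⟩
      exact ⟨d, hd, (h d φ m q).2 hP⟩
  have s20 := ww_rel har p2 p0 chk20 chk02 ks (by decide)
  have s01 := ww_rel har p0 p1 chk01 chk10 kr (by decide)
  have s13 := ww_rel har p1 p3 chk13 chk31 ks (by decide)
  have s23 := ww_rel har p2 p3 chk23 chk32 kt (by decide)
  have hsup : (FIC.sup (FK pl px pz kr) (FK pl px pz ks)).r (ww pl px [0, 1, 2, 3])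
      (ww pl px [3, 2, 1, 0]) := by
    have a1 := FIC.le_sup_right (FK pl px pz kr) (FK pl px pz ks) _ _ s20
    have a2 := FIC.le_sup_left (FK pl px pz kr) (FK pl px pz ks) _ _ s01
    have a3 := FIC.le_sup_right (FK pl px pz kr) (FK pl px pz ks) _ _ s13
    exact FIC.trans _ (FIC.trans _ a1 a2) a3
  have hfin := hm (FK pl px pz kr) (FK pl px pz ks) (FK pl px pz kt)
    (le_FK H har h1 h2 kr) (le_FK H har h1 h2 ks) (le_FK H har h1 h2 kt) hle _ _ hsup s23
  have hinv : ∀ w w' : Word, (FIC.sup (FK pl px pz kr)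
      (FIC.inf (FK pl px pz ks) (FK pl px pz kt))).r w w' →
      PP pl px pz (fun j => j = 2) w → PP pl px pz (fun j => j = 2) w' := by
    intro w w' h
    induction h with
    | refl => exact id
    | tail _ h3 ih =>
      intro hw
      have hw' := ih hw
      rcases h3 with h3 | h3
      · have h4 := (FK.keep h3 2).1 ⟨hw'.1, by
          show kr _ = 2
          rw [hw'.2]; rfl⟩
        exact ⟨h4.1, kr_two h4.2⟩
      · obtain ⟨h3s, h3t⟩ := h3
        have h4 := (FK.keep h3s 0).1 ⟨hw'.1, by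
          show ks _ = 0
          rw [hw'.2]; rfl⟩
        have h5 := (FK.keep h3t 2).1 ⟨hw'.1, by
          show kt _ = 2
          rw [hw'.2]; rfl⟩
        exact ⟨h4.1, ks_kt h4.2 h5.2⟩
  have hb2 := base_ww har p2
  have hb3 := base_ww har p3
  have := (hinv _ _ hfin ⟨hb2.1, by
    show cls _ = 2
    rw [hb2.2]; decide⟩).2
  have h3 : cls (blk (ww pl px [3, 2, 1, 0]).toList px) = 2 := this
  rw [hb3.2] at h3
  exact absurd h3 (by decide)

end Pool.Agent.Helper2_MV
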