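import Pool.Agent.Helper2_MV.Blocks
import Pool.Agent.Helper2_MV.Perm4

/-!
Substitution instances of the words with an interleaved block.
-/

namespace Pool.Agent.Helper2_MV

/-- the interleaved block -/
def Lw : List ℕ := [4, 0, 5, 1, 6, 2, 7, 3, 8]

/-- the pins -/
def Zw : List ℕ := [4, 5, 6, 7, 8]

/-- the positions of the three blocks -/
def Arr (pl px pz : ℕ) : Prop :=
  pl < 3 ∧ px < 3 ∧ pz < 3 ∧ pl ≠ px ∧ pl ≠ pz ∧ px ≠ pz

/-- selection -/
def sel (pl px : ℕ) (L X Z : List ℕ) (k : ℕ) : List ℕ :=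
  if k = pl then L else if k = px then X else Z

/-- the word with blocks `L`, `X`, `Z` at the given positions -/
def W (pl px : ℕ) (L X Z : List ℕ) : List ℕ :=
  mk3 (sel pl px L X Z 0) (sel pl px L X Z 1) (sel pl px L X Z 2)

/-- the words of the family -/
structure Base (pl px pz : ℕ) (N : List ℕ) : Prop where
  hs : N.filter sep = [9, 10]
  hl : blk N pl = Lw
  hx : (blk N px).Perm [0, 1, 2, 3]
  hz : (blk N pz).Perm Zw

theorem alt_aux' : ∀ p n : Fin 10, 2 ≤ (n : ℕ) → (p : ℕ) + n ≤ 9 →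
    (∃ a ∈ ((Lw.drop p).take n), a < 4) ∧ (∃ b ∈ ((Lw.drop p).take n), 4 ≤ b) := by
  decide +kernel

theorem alt_aux (p : ℕ) (hp : p ≤ 9) (n : ℕ) (hn : n ≤ 9) (h2 : 2 ≤ n) (h : p + n ≤ 9) :
    (∃ a ∈ ((Lw.drop p).take n), a < 4) ∧ (∃ b ∈ ((Lw.drop p).take n), 4 ≤ b) :=
  alt_aux' ⟨p, by omega⟩ ⟨n, by omega⟩ h2 h

theorem alt {F : List ℕ} (h : F <:+: Lw) (h2 : 2 ≤ F.length) :
    (∃ a ∈ F, a < 4) ∧ (∃ b ∈ F, 4 ≤ b) := by
  obtain ⟨p, q, hpq⟩ := h
  have h1 : F = (Lw.drop p.length).take F.length := by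
    rw [← hpq, List.append_assoc, List.drop_left, List.take_left]
  have h3 := congrArg List.length hpq
  have h4 : Lw.length = 9 := rfl
  simp only [List.length_append] at h3
  have := alt_aux p.length (by omega) F.length (by omega) h2 (by omega)
  rw [h1]
  exact this

theorem fac (M G1 G2 Q : List ℕ) (B : ℕ → List ℕ) (k : ℕ) (hk : k < 3) :
    ∃ A C : List ℕ, (∀ B' : ℕ → List ℕ, (∀ i, i ≠ k → B' i = B i) →
      M ++ B' 0 ++ G1 ++ B' 1 ++ G2 ++ B' 2 ++ Q = A ++ B' k ++ C) ∧
      ∀ j < 3, j ≠ k → (B j <:+: A ∨ B j <:+: C) := by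
  interval_cases k
  · refine ⟨M, G1 ++ B 1 ++ G2 ++ B 2 ++ Q, ?_, ?_⟩
    · intro B' h
      rw [h 1 (by omega), h 2 (by omega)]
      simp [List.append_assoc]
    · intro j hj hj0
      right
      have : j = 1 ∨ j = 2 := by omega
      rcases this with rfl | rfl
      · exact ⟨G1, G2 ++ B 2 ++ Q, by simp [List.append_assoc]⟩
      · exact ⟨G1 ++ B 1 ++ G2, Q, by simp [List.append_assoc]⟩
  · refine ⟨M ++ B 0 ++ G1, G2 ++ B 2 ++ Q, ?_, ?_⟩
    · intro B' h
      rw [h 0 (by omega), h 2 (by omega)]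
      simp [List.append_assoc]
    · intro j hj hj0
      have : j = 0 ∨ j = 2 := by omega
      rcases this with rfl | rfl
      · left; exact ⟨M, G1, by simp [List.append_assoc]⟩
      · right; exact ⟨G2, Q, by simp [List.append_assoc]⟩
  · refine ⟨M ++ B 0 ++ G1 ++ B 1 ++ G2, Q, ?_, ?_⟩
    · intro B' h
      rw [h 0 (by omega), h 1 (by omega)]
    · intro j hj hj0
      left
      have : j = 0 ∨ j = 1 := by omega
      rcases this with rfl | rfl
      · exact ⟨M, G1 ++ B 1 ++ G2, by simp [List.append_assoc]⟩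
      · exact ⟨M ++ B 0 ++ G1, G2, by simp [List.append_assoc]⟩

theorem two_le_count {A Y C F : List ℕ} {a : ℕ} (h : F <:+: A ∨ F <:+: C) (hF : a ∈ F)
    (hY : a ∈ Y) : 2 ≤ (A ++ Y ++ C).count a := by
  have h1 : 1 ≤ Y.count a := List.count_pos_iff.2 hY
  have h2 : 1 ≤ F.count a := List.count_pos_iff.2 hF
  rw [List.count_append, List.count_append]
  rcases h with h | h
  · have := h.sublist.count_le a
    omega
  · have := h.sublist.count_le a
    omega

theorem count_sep {N : List ℕ} (h : N.filter sep = [9, 10]) {a : ℕ} (ha : sep a = true) :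
    N.count a = 1 := by
  have h1 : (N.filter sep).count a = N.count a := List.count_filter ha
  rw [← h1, h]
  have : a = 9 ∨ a = 10 := by simpa [sep] using ha
  rcases this with rfl | rfl <;> rfl

theorem flatMap_single {g : ℕ → List ℕ} {i0 : ℕ} (s : List ℕ) (hn : s.Nodup) (h : i0 ∈ s)
    (hg : ∀ i ∈ s, i ≠ i0 → g i = []) : s.flatMap g = g i0 := by
  induction s with
  | nil => simp at h
  | cons a t ih =>
    rw [List.flatMap_cons]
    rw [List.nodup_cons] at hn
    by_cases ha : a = i0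
    · subst ha
      have : t.flatMap g = [] := by
        rw [List.flatMap_eq_nil_iff]
        intro i hi
        exact hg i (by simp [hi]) (fun h' => hn.1 (h' ▸ hi))
      rw [this, List.append_nil]
    · rw [hg a (by simp) ha, List.nil_append]
      refine ih hn.2 ?_ (fun i hi => hg i (by simp [hi]))
      rcases List.mem_cons.1 h with h' | h'
      · exact absurd h'.symm ha
      · exact h'

theorem infix_flatMap {g : ℕ → List ℕ} {i : ℕ} {s : List ℕ} (h : i ∈ s) :
    g i <:+: s.flatMap g := by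
  obtain ⟨p, q, rfl⟩ := List.append_of_mem h
  exact ⟨p.flatMap g, q.flatMap g, by simp [List.append_assoc]⟩

theorem Base.nodup {pl px pz : ℕ} (ha : Arr pl px pz) {N : List ℕ} (h : Base pl px pz N)
    (k : ℕ) : (blk N k).Nodup := by
  obtain ⟨h1, h2, h3, h4, h5, h6⟩ := ha
  by_cases hk : k < 3
  · have : k = pl ∨ k = px ∨ k = pz := by omega
    rcases this with rfl | rfl | rfl
    · rw [h.hl]; decide
    · exact h.hx.nodup_iff.2 (by decide)
    · exact h.hz.nodup_iff.2 (by decide)
  · rw [blk_of_lt N k (by rw [sc_of_sep h.hs]; omega)]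
    exact List.nodup_nil

theorem Base.lt3 {pl px pz : ℕ} {N : List ℕ} (h : Base pl px pz N)
    {k a : ℕ} (ha : a ∈ blk N k) : k < 3 := by
  by_contra hk
  rw [blk_of_lt N k (by rw [sc_of_sep h.hs]; omega)] at ha
  simp at ha

theorem mem_Lw {a : ℕ} : a ∈ Lw ↔ a ≤ 8 := by
  constructor
  · intro h
    simp [Lw] at h
    omega
  · intro h
    interval_cases a <;> simp [Lw]

theorem mem_Zw {a : ℕ} : a ∈ Zw ↔ 4 ≤ a ∧ a ≤ 8 := by
  constructor
  · intro h
    simp [Zw] at h
    omega
  · rintro ⟨h1, h2⟩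
    interval_cases a <;> simp [Zw]

theorem mem_X {a : ℕ} : a ∈ ([0, 1, 2, 3] : List ℕ) ↔ a < 4 := by
  constructor
  · intro h
    simp at h
    omega
  · intro h
    interval_cases a <;> simp

/-- replacing the factor `Y` by the rearranged factor `Y'` -/
theorem Base.replace {pl px pz : ℕ} {A Y Y' C : List ℕ}
    (h : Base pl px pz (A ++ Y ++ C)) (hY : SF Y) (hY' : SF Y') (hp : Y'.Perm Y)
    (hsc : sc A ≠ pl) : Base pl px pz (A ++ Y' ++ C) := by
  have hperm : ∀ k, (blk (A ++ Y' ++ C) k).Perm (blk (A ++ Y ++ C) k) := by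
    intro k
    by_cases hk : k = sc A
    · subst hk
      rw [blk_mid _ _ _ hY, blk_mid _ _ _ hY']
      exact (hp.append_left _).append_right _
    · rw [blk_other A Y Y' C hY hY' k hk]
  refine ⟨?_, ?_, (hperm px).trans h.hx, (hperm pz).trans h.hz⟩
  · have e : ∀ Z : List ℕ, SF Z → (A ++ Z ++ C).filter sep = A.filter sep ++ C.filter sep := by
      intro Z hZ
      rw [List.filter_append, List.filter_append]
      have : Z.filter sep = [] := by
        rw [List.filter_eq_nil_iff]
        intro a ha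
        rw [hZ a ha]
        decide
      rw [this, List.append_nil]
    rw [e _ hY', ← e _ hY]
    exact h.hs
  · rw [blk_other A Y Y' C hY hY' pl (Ne.symm hsc)]
    exact h.hl

/-- **the substitution step** -/
theorem step {pl px pz : ℕ} (har : Arr pl px pz) {s s' : List ℕ} (hs : s.Perm [0, 1, 2, 3])
    (hs' : s'.Perm [0, 1, 2, 3]) (hchk : chk s s' = true) (c : ℕ → Prop)
    (hcc : c (cls s) → c (cls s')) (M Q : List ℕ) (g : ℕ → List ℕ)
    (hN : Base pl px pz (M ++ (W pl px Lw s Zw).flatMap g ++ Q))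
    (hc : c (cls (blk (M ++ (W pl px Lw s Zw).flatMap g ++ Q) px))) :
    Base pl px pz (M ++ (W pl px Lw s' Zw).flatMap g ++ Q) ∧
      c (cls (blk (M ++ (W pl px Lw s' Zw).flatMap g ++ Q) px)) := by
  obtain ⟨hpl, hpx, hpz, hlx, hlz, hxz⟩ := id har
  set B : ℕ → List ℕ := fun k => (sel pl px Lw s Zw k).flatMap g with hB
  set B' : ℕ → List ℕ := fun k => (sel pl px Lw s' Zw k).flatMap g with hB'
  have eN : M ++ (W pl px Lw s Zw).flatMap g ++ Q =
      M ++ B 0 ++ g 9 ++ B 1 ++ g 10 ++ B 2 ++ Q := by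
    simp [W, mk3, hB, List.flatMap_append, List.flatMap_cons, List.append_assoc]
  have eN' : M ++ (W pl px Lw s' Zw).flatMap g ++ Q =
      M ++ B' 0 ++ g 9 ++ B' 1 ++ g 10 ++ B' 2 ++ Q := by
    simp [W, mk3, hB', List.flatMap_append, List.flatMap_cons, List.append_assoc]
  obtain ⟨A, C, hAC, hj⟩ := fac M (g 9) (g 10) Q B px hpx
  obtain ⟨A1, C1, hAC1, hj1⟩ := fac M (g 9) (g 10) Q B pl hpl
  have hBB : ∀ i, i ≠ px → B' i = B i := by
    intro i hi
    simp only [hB, hB', sel]
    by_cases h : i = pl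
    · simp [h]
    · simp [h, hi]
  have eBx : B px = s.flatMap g := by simp [hB, sel, Ne.symm hlx]
  have eBx' : B' px = s'.flatMap g := by simp [hB', sel, Ne.symm hlx]
  have eBl : B pl = Lw.flatMap g := by simp [hB, sel]
  have eBz : B pz = Zw.flatMap g := by simp [hB, sel, Ne.symm hlz, Ne.symm hxz]
  have hA := hAC B (fun _ _ => rfl)
  have hA' := hAC B' hBB
  have hA1 := hAC1 B (fun _ _ => rfl)
  have jl := hj pl hpl hlx
  have jz1 := hj1 pz hpz (Ne.symm hlz)
  rw [eN, hA, eBx] at hN hc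
  rw [eN', hA', eBx']
  rw [hA, eBx] at hA1
  rw [eBl] at jl hA1
  rw [eBz] at jz1
  clear hAC hAC1 hj hj1 hBB hA hA' eN eN' eBx eBx' eBl eBz
  clear_value B B'
  clear hB hB' B B'
  set Y := s.flatMap g with hYd
  set Y' := s'.flatMap g with hYd'
  set Λ := Lw.flatMap g with hΛd
  set Z := Zw.flatMap g with hZd
  have hsm : ∀ i, i ∈ s ↔ i < 4 := fun i => by rw [hs.mem_iff, mem_X]
  have hsm' : ∀ i, i ∈ s' ↔ i < 4 := fun i => by rw [hs'.mem_iff, mem_X]
  have memY : ∀ {a i : ℕ}, i < 4 → a ∈ g i → a ∈ Y := fun {a i} hi ha =>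
    List.mem_flatMap.2 ⟨i, (hsm i).2 hi, ha⟩
  have memL : ∀ {a i : ℕ}, i ≤ 8 → a ∈ g i → a ∈ Λ := fun {a i} hi ha =>
    List.mem_flatMap.2 ⟨i, mem_Lw.2 hi, ha⟩
  have memZ : ∀ {a i : ℕ}, 4 ≤ i → i ≤ 8 → a ∈ g i → a ∈ Z := fun {a i} hi hi' ha =>
    List.mem_flatMap.2 ⟨i, mem_Zw.2 ⟨hi, hi'⟩, ha⟩
  have hpY : Y'.Perm Y := (hs'.trans hs.symm).flatMap_right g
  -- separators
  have sfx : ∀ i < 4, SF (g i) := by
    intro i hi a ha
    by_contra hsa
    have hsa' : sep a = true := by simpa using hsa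
    have h1 := count_sep hN.hs hsa'
    have h2 := two_le_count (A := A) (C := C) (Y := Y) jl (memL (by omega) ha) (memY hi ha)
    omega
  have sfz : ∀ i, 4 ≤ i → i ≤ 8 → SF (g i) := by
    intro i hi hi' a ha
    by_contra hsa
    have hsa' : sep a = true := by simpa using hsa
    have h1 := count_sep hN.hs hsa'
    rw [hA1] at h1
    have h2 := two_le_count (A := A1) (C := C1) (Y := Λ) jz1 (memZ hi hi' ha)
      (memL (by omega) ha)
    omega
  have sfY : SF Y := by
    intro a ha
    obtain ⟨i, hi, ha⟩ := List.mem_flatMap.1 ha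
    exact sfx i ((hsm i).1 hi) a ha
  have sfY' : SF Y' := fun a ha => sfY a (hpY.mem_iff.1 ha)
  have sfL : SF Λ := by
    intro a ha
    obtain ⟨i, hi, ha⟩ := List.mem_flatMap.1 ha
    rw [mem_Lw] at hi
    by_cases h4 : i < 4
    · exact sfx i h4 a ha
    · exact sfz i (by omega) hi a ha
  have sfZ : SF Z := by
    intro a ha
    obtain ⟨i, hi, ha⟩ := List.mem_flatMap.1 ha
    rw [mem_Zw] at hi
    exact sfz i hi.1 hi.2 a ha
  by_cases hK : ∃ i i', i < i' ∧ i' < 4 ∧ g i ≠ [] ∧ g i' ≠ []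
  swap
  · -- at most one nonempty image
    have h1 : ∃ i0 < 4, ∀ i < 4, i ≠ i0 → g i = [] := by
      have hK' : ∀ i i', i < i' → i' < 4 → g i ≠ [] → g i' = [] := by
        intro i i' h1 h2 h3
        by_contra h4
        exact hK ⟨i, i', h1, h2, h3, h4⟩
      by_cases h0 : g 0 = []
      · by_cases h1 : g 1 = []
        · by_cases h2 : g 2 = []
          · refine ⟨3, by omega, fun i hi hne => ?_⟩
            interval_cases i
            · exact h0
            · exact h1
            · exact h2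
            · exact absurd rfl hne
          · refine ⟨2, by omega, fun i hi hne => ?_⟩
            interval_cases i
            · exact h0
            · exact h1
            · exact absurd rfl hne
            · exact hK' 2 3 (by omega) (by omega) h2
        · refine ⟨1, by omega, fun i hi hne => ?_⟩
          interval_cases i
          · exact h0
          · exact absurd rfl hne
          · exact hK' 1 2 (by omega) (by omega) h1
          · exact hK' 1 3 (by omega) (by omega) h1
      · refine ⟨0, by omega, fun i hi hne => ?_⟩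
        exact hK' 0 i (by omega) hi h0
    obtain ⟨i0, hi0, h1⟩ := h1
    have e : Y' = Y := by
      rw [hYd, hYd', flatMap_single s (hs.nodup_iff.2 (by decide)) ((hsm i0).2 hi0)
        (fun i hi => h1 i ((hsm i).1 hi)), flatMap_single s' (hs'.nodup_iff.2 (by decide))
        ((hsm' i0).2 hi0) (fun i hi => h1 i ((hsm' i).1 hi))]
    rw [e]
    exact ⟨hN, hc⟩
  obtain ⟨i, i', hii, hi', hgi, hgi'⟩ := hK
  obtain ⟨a, ha⟩ := List.exists_mem_of_ne_nil _ hgi
  obtain ⟨a', ha'⟩ := List.exists_mem_of_ne_nil _ hgi'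
  have haY := memY (by omega) ha
  have haL := memL (by omega) ha
  have lenY : 2 ≤ Y.length := by
    have h1 : Y.Perm ([0, 1, 2, 3].flatMap g) := hs.flatMap_right g
    rw [h1.length_eq]
    have h2 : 1 ≤ (g i).length := List.length_pos_iff.2 hgi
    have h3 : 1 ≤ (g i').length := List.length_pos_iff.2 hgi'
    simp only [List.flatMap_cons, List.flatMap_nil, List.length_append, List.length_nil]
    have hi4 : i < 4 := by omega
    interval_cases i' <;> interval_cases i <;> omega
  have lenL : 2 ≤ Λ.length := by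
    have h2 : 1 ≤ (g i).length := List.length_pos_iff.2 hgi
    have h3 : 1 ≤ (g i').length := List.length_pos_iff.2 hgi'
    simp only [hΛd, Lw, List.flatMap_cons, List.flatMap_nil, List.length_append, List.length_nil]
    have hi4 : i < 4 := by omega
    interval_cases i' <;> interval_cases i <;> omega
  have hnd := hN.nodup har
  obtain ⟨kL, hkL, hkLd⟩ := infix_blk A Y C Λ sfY sfL jl
  have hkne : kL ≠ sc A := fun h => hkLd h a haL haY (hnd _)
  have hkY := infix_mid A Y C sfY
  have hkL3 : kL < 3 := hN.lt3 (hkL.subset haL)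
  have hkY3 : sc A < 3 := hN.lt3 (hkY.subset haY)
  have mx : ∀ {b}, b ∈ blk (A ++ Y ++ C) px → b < 4 := fun {b} hb => by
    rwa [hN.hx.mem_iff, mem_X] at hb
  have mz : ∀ {b}, b ∈ blk (A ++ Y ++ C) pz → 4 ≤ b := fun {b} hb => by
    rw [hN.hz.mem_iff, mem_Zw] at hb
    exact hb.1
  have YL : ∀ {b}, b ∈ Y → b ∈ Λ := fun {b} hb => by
    obtain ⟨j, hj, hb⟩ := List.mem_flatMap.1 hb
    exact memL (by have := (hsm j).1 hj; omega) hb
  -- the block of Y is not L
  have hYl : sc A ≠ pl := by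
    intro h
    rw [h, hN.hl] at hkY
    obtain ⟨⟨b, hb, hb4⟩, ⟨b', hb', hb4'⟩⟩ := alt hkY lenY
    have h1 := hkL.subset (YL hb)
    have h2 := hkL.subset (YL hb')
    have : kL = px ∨ kL = pz := by omega
    rcases this with rfl | rfl
    · have := mx h2; omega
    · have := mz h1; omega
  -- the block of Λ is L
  have hLl : kL = pl := by
    by_contra h
    have h1 := hkL.subset haL
    have h2 := hkY.subset haY
    have : (kL = px ∧ sc A = pz) ∨ (kL = pz ∧ sc A = px) := by omega
    rcases this with ⟨e1, e2⟩ | ⟨e1, e2⟩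
    · rw [e1] at h1; rw [e2] at h2
      have := mx h1; have := mz h2; omega
    · rw [e1] at h1; rw [e2] at h2
      have := mx h2; have := mz h1; omega
  refine ⟨hN.replace sfY sfY' hpY hYl, ?_⟩
  by_cases hYx : sc A = px
  swap
  · rw [blk_other A Y Y' C sfY sfY' px (Ne.symm hYx)]
    exact hc
  -- main case
  have hYx' : ∀ b ∈ Y, b < 4 := fun b hb => mx (hYx ▸ hkY.subset hb)
  have hgx : ∀ j < 4, ∀ b ∈ g j, b < 4 := fun j hj b hb => hYx' b (memY hj hb)
  rw [hLl, hN.hl] at hkL
  obtain ⟨-, ⟨b, hb, hb4⟩⟩ := alt hkL lenL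
  have hbZ : b ∈ Z := by
    obtain ⟨j, hj, hb⟩ := List.mem_flatMap.1 hb
    rw [mem_Lw] at hj
    by_cases h4 : j < 4
    · have := hgx j h4 b hb; omega
    · exact memZ (by omega) hj hb
  have hZ4 : ∀ d ∈ Z, 4 ≤ d := by
    obtain ⟨kZ, hkZ, hkZd⟩ := infix_blk A1 Λ C1 Z sfL sfZ jz1
    have hA1l : sc A1 = pl := by
      have h1 := infix_mid A1 Λ C1 sfL
      rw [← hA1] at h1
      have h2 := h1.subset haL
      have h3 := h1.subset hb
      have h4 := hN.lt3 h2
      by_contra h
      have : sc A1 = px ∨ sc A1 = pz := by omega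
      rcases this with e | e
      · rw [e] at h3; have := mx h3; omega
      · rw [e] at h2; have := mz h2; have := hgx i (by omega) a ha; omega
    rw [← hA1] at hkZ hkZd
    have h1 : kZ ≠ pl := fun h => hkZd (h.trans hA1l.symm) b hbZ hb (hnd _)
    have h2 := hkZ.subset hbZ
    have h3 := hN.lt3 h2
    have h4 : kZ = pz := by
      by_contra h
      have : kZ = px := by omega
      rw [this] at h2
      have := mx h2
      omega
    intro d hd
    exact mz (h4 ▸ hkZ.subset hd)
  have hgz : ∀ j, 4 ≤ j → j ≤ 8 → ∀ d ∈ g j, 4 ≤ d := fun j h1 h2 d hd => hZ4 d (memZ h1 h2 hd)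
  have hinf : g 0 ++ g 1 ++ g 2 ++ g 3 <:+: [0, 1, 2, 3] := by
    have h1 := hkL.filter (fun d => decide (d < 4))
    have e1 : Lw.filter (fun d => decide (d < 4)) = [0, 1, 2, 3] := by decide
    have fx : ∀ j < 4, (g j).filter (fun d => decide (d < 4)) = g j := by
      intro j hj
      rw [List.filter_eq_self]
      intro d hd
      simpa using hgx j hj d hd
    have fz : ∀ j, 4 ≤ j → j ≤ 8 → (g j).filter (fun d => decide (d < 4)) = [] := by
      intro j hj hj'
      rw [List.filter_eq_nil_iff]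
      intro d hd
      simpa using hgz j hj hj' d hd
    have e2 : Λ.filter (fun d => decide (d < 4)) = g 0 ++ g 1 ++ g 2 ++ g 3 := by
      simp only [hΛd, Lw, List.flatMap_cons, List.flatMap_nil, List.filter_append,
        List.append_nil]
      rw [fz 4 (by omega) (by omega), fz 5 (by omega) (by omega), fz 6 (by omega) (by omega),
        fz 7 (by omega) (by omega), fz 8 (by omega) (by omega), fx 0 (by omega),
        fx 1 (by omega), fx 2 (by omega), fx 3 (by omega)]
      simp [List.append_assoc]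
    rwa [e1, e2] at h1
  have hlen : ∀ j < 4, (g j).length ≤ 1 := by
    intro j hj
    by_contra h
    have h1 : g j <:+: Lw := (infix_flatMap (mem_Lw.2 (by omega))).trans hkL
    obtain ⟨-, ⟨d, hd, hd4⟩⟩ := alt h1 (by omega)
    have := hgx j hj d hd
    omega
  have hbx : blk (A ++ Y ++ C) px = blk A (sc A) ++ Y ++ blk C 0 := by
    rw [← hYx, blk_mid _ _ _ sfY]
  have hbx' : blk (A ++ Y' ++ C) px = blk A (sc A) ++ Y' ++ blk C 0 := by
    rw [← hYx, blk_mid _ _ _ sfY']
  have := fin_step hchk g hlen hgx hinf hN.hx hbx (fun j hj => (hsm j).1 hj)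
    (fun j hj => (hsm' j).1 hj)
  rw [hbx']
  rcases this with h | ⟨h1, h2⟩
  · rw [← h]; exact hc
  · rw [h2]
    rw [h1] at hc
    exact hcc hc

end Pool.Agent.Helper2_MV
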